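import Mathlib

set_option autoImplicit false

namespace Pool.Agent.Results.MP_41928e_lc.NoMarkov

/-- A layered graph with layers `0, ..., L + 1` (all nonempty), single source `s`. -/
def Layered {V : Type} {L : ℕ} (lay : V → Fin (L + 2)) (E : V → V → Prop) (s : V) : Prop :=
  Function.Surjective lay ∧ (∀ v, lay v = 0 ↔ v = s) ∧
    ∀ u v, E u v → (lay v).val = (lay u).val + 1

/-- Directed paths from `s` with `L + 1` edges, that is, to the last layer. -/
def Path {V : Type} (L : ℕ) (E : V → V → Prop) (s : V) : Type :=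
  {p : Fin (L + 2) → V // p 0 = s ∧ ∀ i : Fin (L + 1), E (p i.castSucc) (p i.succ)}

noncomputable instance {V : Type} [Fintype V] (L : ℕ) (E : V → V → Prop) (s : V) :
    Fintype (Path L E s) := by
  classical exact Subtype.fintype _

open Classical in
/-- The attacker's payoff: `1` exactly when the two paths have no common edge. -/
noncomputable def pay {V : Type} {L : ℕ} {E : V → V → Prop} {s : V} (p q : Path L E s) : ℝ :=
  if ∃ i j : Fin (L + 1), p.1 i.castSucc = q.1 j.castSucc ∧ p.1 i.succ = q.1 j.succ then 0 else 1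

/-- Mixed strategies. -/
def Mixed {P : Type} [Fintype P] (x : P → ℝ) : Prop := (∀ p, 0 ≤ x p) ∧ ∑ p, x p = 1

/-- Expected payoff of the attacker. -/
noncomputable def U {V : Type} [Fintype V] {L : ℕ} {E : V → V → Prop} {s : V}
    (xd xa : Path L E s → ℝ) : ℝ := ∑ p, ∑ q, xd p * xa q * pay p q

/-- Nash equilibria (saddle points). -/
def NE {V : Type} [Fintype V] {L : ℕ} {E : V → V → Prop} {s : V} (xd xa : Path L E s → ℝ) : Prop :=
  Mixed xd ∧ Mixed xa ∧ (∀ y, Mixed y → U xd y ≤ U xd xa) ∧ ∀ y, Mixed y → U xd xa ≤ U y xa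

/-- Product form over the edges of the path; every Markovian strategy has it. -/
def ProdForm {V : Type} {L : ℕ} {E : V → V → Prop} {s : V} (x : Path L E s → ℝ) : Prop :=
  ∃ q : V → V → ℝ, ∀ p, x p = ∏ i : Fin (L + 1), q (p.1 i.castSucc) (p.1 i.succ)

def ed : List (Fin 11 × Fin 11) := [(0, 1), (0, 2), (0, 3), (1, 4), (1, 6), (2, 4), (3, 5),
  (4, 7), (4, 8), (6, 9), (5, 8), (7, 10), (8, 10), (9, 10)]

def EE (u v : Fin 11) : Prop := (u, v) ∈ ed

instance : DecidableRel EE := fun u v => inferInstanceAs (Decidable ((u, v) ∈ ed))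

def pp : Fin 6 → Fin 5 → Fin 11 := ![![0, 1, 4, 7, 10], ![0, 1, 4, 8, 10], ![0, 1, 6, 9, 10],
  ![0, 2, 4, 7, 10], ![0, 2, 4, 8, 10], ![0, 3, 5, 8, 10]]

theorem pp_ok : ∀ k, pp k 0 = 0 ∧ ∀ i : Fin 4, EE (pp k i.castSucc) (pp k i.succ) := by decide

def P (k : Fin 6) : Path 3 EE 0 := ⟨pp k, pp_ok k⟩

theorem P_bij : Function.Bijective P := by
  constructor
  · intro a b h
    have : ∀ a b, pp a = pp b → a = b := by decide
    exact this a b (congrArg Subtype.val h)
  · rintro ⟨p, h0, h⟩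
    have key : ∀ a, EE 0 a → ∀ b, EE a b → ∀ c, EE b c → ∀ d, EE c d →
        ∃ k, pp k = ![0, a, b, c, d] := by decide +kernel
    obtain ⟨k, hk⟩ := key (p 1) (by simpa [h0] using h 0) (p 2) (h 1) (p 3) (h 2) (p 4) (h 3)
    refine ⟨k, Subtype.ext (hk.trans ?_)⟩
    funext i
    fin_cases i <;> simp [h0]

def mm : Fin 6 → Fin 6 → Bool := ![![true, true, true, true, false, false],
  ![true, true, true, false, true, true], ![true, true, true, false, false, false],
  ![true, false, false, true, true, false], ![false, true, false, true, true, true],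
  ![false, true, false, false, true, true]]

theorem pay_eq (a b : Fin 6) : pay (P a) (P b) = if mm a b then 0 else 1 := by
  have : ∀ a b, (∃ i j : Fin 4, pp a i.castSucc = pp b j.castSucc ∧ pp a i.succ = pp b j.succ) ↔
      mm a b = true := by decide +kernel
  unfold pay
  by_cases h : mm a b = true
  · rw [if_pos h]; exact if_pos ((this a b).2 h)
  · rw [if_neg h]; exact if_neg fun h' => h ((this a b).1 h')

theorem sumP (f : Path 3 EE 0 → ℝ) : ∑ p, f p = ∑ k, f (P k) :=
  (Fintype.sum_bijective P P_bij _ _ fun _ => rfl).symm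

theorem result : ∃ (V : Type) (_ : Fintype V) (L : ℕ) (lay : V → Fin (L + 2)) (E : V → V → Prop)
    (s : V), Layered lay E s ∧ Nonempty (Path L E s) ∧
      ∀ xd xa : Path L E s → ℝ, NE xd xa → ¬ ProdForm xd := by
  refine ⟨Fin 11, inferInstance, 3, ![0, 1, 1, 1, 2, 2, 2, 3, 3, 3, 4], EE, 0,
    ⟨by decide, by decide, by decide⟩, ⟨P 0⟩, ?_⟩
  rintro xd xa ⟨⟨d0, d1⟩, ⟨a0, a1⟩, h1, h2⟩ ⟨q, hq⟩
  let e := Equiv.ofBijective P P_bij
  have lift : ∀ y : Fin 6 → ℝ, (∀ k, 0 ≤ y k) → ∑ k, y k = 1 →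
      Mixed (fun p => y (e.symm p)) ∧ ∀ k, y (e.symm (P k)) = y k := fun y y0 y1 => by
    have : ∀ k, y (e.symm (P k)) = y k := fun k => congrArg y (e.symm_apply_apply k)
    exact ⟨⟨fun _ => y0 _, by rw [sumP]; simp only [this, y1]⟩, this⟩
  have up : U xd xa ≤ 1 / 3 := by
    obtain ⟨m, t⟩ := lift ![1 / 3, 1 / 3, 0, 0, 1 / 3, 0]
      (fun k => by fin_cases k <;> simp) (by simp [Fin.sum_univ_six]; norm_num)
    refine (h2 _ m).trans ?_
    rw [sumP, Fin.sum_univ_six] at a1
    simp only [U, sumP, t, pay_eq]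
    simp [Fin.sum_univ_six, mm]
    linarith [a0 (P 1)]
  have pure : ∀ k, ∑ j, xd (P j) * (if mm j k then 0 else 1) ≤ 1 / 3 := fun k => by
    obtain ⟨m, t⟩ := lift (Pi.single k 1)
      (fun j => by simp only [Pi.single_apply]; split_ifs <;> norm_num) (by simp)
    refine le_trans (le_of_eq ?_) ((h1 _ m).trans up)
    simp only [U, sumP, t, pay_eq]
    refine Finset.sum_congr rfl fun j _ => ?_
    rw [Finset.sum_eq_single k (fun b _ hb => by simp [Pi.single_apply, hb]) (by simp)]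
    simp
  have p2 := pure 2
  have p3 := pure 3
  have p5 := pure 5
  have p0 := pure 0
  have p4 := pure 4
  rw [sumP, Fin.sum_univ_six] at d1
  simp [Fin.sum_univ_six, mm] at p0 p2 p3 p4 p5
  have z3 : xd (P 3) = 0 := by linarith [d0 (P 3), d0 (P 2), d0 (P 5)]
  have z0 : xd (P 0) = 1 / 3 := by linarith [d0 (P 3), d0 (P 2), d0 (P 5)]
  have z4 : xd (P 4) = 1 / 3 := by linarith [d0 (P 3), d0 (P 2), d0 (P 5)]
  have : xd (P 0) * xd (P 4) = xd (P 1) * xd (P 3) := by
    rw [hq, hq, hq, hq, Fin.prod_univ_four, Fin.prod_univ_four, Fin.prod_univ_four,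
      Fin.prod_univ_four]
    show q 0 1 * q 1 4 * q 4 7 * q 7 10 * (q 0 2 * q 2 4 * q 4 8 * q 8 10) =
      q 0 1 * q 1 4 * q 4 8 * q 8 10 * (q 0 2 * q 2 4 * q 4 7 * q 7 10)
    ring
  rw [z0, z3, z4] at this
  norm_num at this

end Pool.Agent.Results.MP_41928e_lc.NoMarkov
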